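import Mathlib

set_option autoImplicit false

open scoped LinearAlgebra.Projectivization

namespace Pool.Agent.N284.Equi

/-- The complex projective plane, the set of the lines through the origin of `ℂ³`. -/
abbrev P2 : Type := ℙ ℂ (EuclideanSpace ℂ (Fin 3))

/-- The distance induced by the Fubini-Study metric: the distance of the points `[u]`, `[v]` is
`arccos (|⟨u, v⟩| / (‖u‖ ‖v‖))`. -/
noncomputable def fsDist (x y : P2) : ℝ :=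
  Real.arccos (‖inner ℂ x.rep y.rep‖ / (‖x.rep‖ * ‖y.rep‖))

/-- The polydisk of radius `ρ` in `ℂⁿ`. -/
def polydisk (n : ℕ) (ρ : ℝ) : Set (Fin n → ℂ) := {z | ∀ i, ‖z i‖ < ρ}

/-- The unit polydisk of `ℂⁿ⁺¹ = ℂⁿ × ℂ`. -/
def unitPolydisk (n : ℕ) : Set ((Fin n → ℂ) × ℂ) := polydisk n 1 ×ˢ {w | ‖w‖ < 1}

/-- The Hartogs figure `H_n^1(r)`. -/
def hartogsFigure (n : ℕ) (r : ℝ) : Set ((Fin n → ℂ) × ℂ) :=
  (polydisk n (1 - r) ×ˢ {w | ‖w‖ < 1}) ∪ (polydisk n 1 ×ˢ {w | r < ‖w‖ ∧ ‖w‖ < 1})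

/-- `f` is a holomorphic map from the open set `U` to the projective plane: locally it is
`[F₀ : F₁ : F₂]` for a holomorphic map `F = (F₀, F₁, F₂)` to `ℂ³` without zeros. -/
def IsHolomorphic {n : ℕ} (U : Set ((Fin n → ℂ) × ℂ)) (f : (Fin n → ℂ) × ℂ → P2) : Prop :=
  ∀ p ∈ U, ∃ W : Set ((Fin n → ℂ) × ℂ), IsOpen W ∧ p ∈ W ∧ W ⊆ U ∧
    ∃ F : (Fin n → ℂ) × ℂ → EuclideanSpace ℂ (Fin 3), DifferentiableOn ℂ F W ∧
      ∀ z ∈ W, ∃ h : F z ≠ 0, f z = Projectivization.mk ℂ (F z) h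

/-- The family `𝓕` is equicontinuous on the set `U`. -/
def IsEquicontinuousOn {n : ℕ} (𝓕 : Set ((Fin n → ℂ) × ℂ → P2)) (U : Set ((Fin n → ℂ) × ℂ)) :
    Prop :=
  ∀ p ∈ U, ∀ ε : ℝ, 0 < ε → ∃ δ : ℝ, 0 < δ ∧
    ∀ f ∈ 𝓕, ∀ z ∈ U, ‖z - p‖ < δ → fsDist (f z) (f p) < ε

end Pool.Agent.N284.Equi
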