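import Pool.Agent.N284.Equi.Defs

set_option autoImplicit false

open scoped LinearAlgebra.Projectivization

namespace Pool.Agent.N284.Equi

abbrev E3 : Type := EuclideanSpace ℂ (Fin 3)

lemma fsDist_mk {u v : E3} (hu : u ≠ 0) (hv : v ≠ 0) :
    fsDist (Projectivization.mk ℂ u hu) (Projectivization.mk ℂ v hv) =
      Real.arccos (‖inner ℂ u v‖ / (‖u‖ * ‖v‖)) := by
  obtain ⟨a, ha⟩ := Projectivization.exists_smul_eq_mk_rep ℂ u hu
  obtain ⟨b, hb⟩ := Projectivization.exists_smul_eq_mk_rep ℂ v hv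
  unfold fsDist
  rw [← ha, ← hb]
  have ha0 : ‖(a : ℂ)‖ ≠ 0 := norm_ne_zero_iff.mpr a.ne_zero
  have hb0 : ‖(b : ℂ)‖ ≠ 0 := norm_ne_zero_iff.mpr b.ne_zero
  congr 1
  rw [Units.smul_def, Units.smul_def, inner_smul_left, inner_smul_right, norm_mul, norm_mul,
    norm_smul, norm_smul, RCLike.norm_conj]
  have hu0 : ‖u‖ ≠ 0 := norm_ne_zero_iff.mpr hu
  have hv0 : ‖v‖ ≠ 0 := norm_ne_zero_iff.mpr hv
  field_simp

lemma ratio_nonneg (u v : E3) : 0 ≤ ‖inner ℂ u v‖ / (‖u‖ * ‖v‖) := by positivity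

lemma ratio_le_one (u v : E3) : ‖inner ℂ u v‖ / (‖u‖ * ‖v‖) ≤ 1 :=
  div_le_one_of_le₀ (norm_inner_le_norm u v) (by positivity)

/-- the sine of the distance -/
lemma sin_bound {u v : E3} (hu : u ≠ 0) (hv : v ≠ 0) :
    Real.sqrt (1 - (‖inner ℂ u v‖ / (‖u‖ * ‖v‖)) ^ 2) ≤ ‖u - v‖ / ‖v‖ := by
  have hu0 : 0 < ‖u‖ := norm_pos_iff.mpr hu
  have hv0 : 0 < ‖v‖ := norm_pos_iff.mpr hv
  apply Real.sqrt_le_iff.mpr
  refine ⟨by positivity, ?_⟩
  have h1 : ‖u - v‖ ^ 2 = ‖u‖ ^ 2 - 2 * (inner ℂ u v : ℂ).re + ‖v‖ ^ 2 := by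
    have := @norm_sub_sq ℂ E3 _ _ _ u v
    simpa using this
  have h2 : (inner ℂ u v : ℂ).re ≤ ‖(inner ℂ u v : ℂ)‖ := Complex.re_le_norm _
  set x := ‖(inner ℂ u v : ℂ)‖ with hx
  rw [div_pow, div_pow, mul_pow, h1, le_div_iff₀ (by positivity)]
  have h3 : (1 - x ^ 2 / (‖u‖ ^ 2 * ‖v‖ ^ 2)) * ‖v‖ ^ 2 = ‖v‖ ^ 2 - x ^ 2 / ‖u‖ ^ 2 := by
    field_simp
  have h4 : 0 ≤ (‖u‖ - x / ‖u‖) ^ 2 := sq_nonneg _
  have h5 : (‖u‖ - x / ‖u‖) ^ 2 = ‖u‖ ^ 2 - 2 * x + x ^ 2 / ‖u‖ ^ 2 := by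
    field_simp
    ring
  rw [h3]
  linarith

lemma arccos_le {t : ℝ} (h0 : 0 ≤ t) (_h1 : t ≤ 1) :
    Real.arccos t ≤ Real.pi / 2 * Real.sqrt (1 - t ^ 2) := by
  have h := Real.mul_le_sin (Real.arccos_nonneg t) (Real.arccos_le_pi_div_two.2 h0)
  rw [Real.sin_arccos] at h
  have hpi := Real.pi_pos
  calc Real.arccos t = Real.pi / 2 * (2 / Real.pi * Real.arccos t) := by field_simp
    _ ≤ _ := by gcongr

lemma fsDist_le {u v : E3} (hu : u ≠ 0) (hv : v ≠ 0) :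
    fsDist (Projectivization.mk ℂ u hu) (Projectivization.mk ℂ v hv) ≤
      Real.pi / 2 * (‖u - v‖ / ‖v‖) := by
  rw [fsDist_mk]
  refine (arccos_le (ratio_nonneg u v) (ratio_le_one u v)).trans ?_
  have := Real.pi_pos
  gcongr
  exact sin_bound hu hv

variable {n : ℕ}

/-- the lift of the maps -/
noncomputable def G (i : Fin n) (c : ℂ) (t : ℝ) (z : (Fin n → ℂ) × ℂ) : E3 :=
  !₂[z.1 i - c, z.2, (t : ℂ)]

lemma G_ne (i : Fin n) (c : ℂ) {t : ℝ} (ht : 0 < t) (z : (Fin n → ℂ) × ℂ) : G i c t z ≠ 0 := by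
  intro h
  have h2 := congrArg (fun v : E3 => v 2) h
  simp [G] at h2
  exact ht.ne' h2

/-- the maps -/
noncomputable def f (i : Fin n) (c : ℂ) (t : ℝ) (ht : 0 < t) (z : (Fin n → ℂ) × ℂ) : P2 :=
  Projectivization.mk ℂ (G i c t z) (G_ne i c ht z)

lemma G_diff (i : Fin n) (c : ℂ) (t : ℝ) : Differentiable ℂ (G i c t) := by
  unfold G
  rw [differentiable_euclidean]
  intro j
  fin_cases j
  · simp
    fun_prop
  · simp
  · simp

lemma G_lower (i : Fin n) (c : ℂ) (t : ℝ) (z : (Fin n → ℂ) × ℂ) :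
    ‖z.1 i - c‖ ≤ ‖G i c t z‖ ∧ ‖z.2‖ ≤ ‖G i c t z‖ := by
  constructor
  · exact PiLp.norm_apply_le (G i c t z) 0
  · exact PiLp.norm_apply_le (G i c t z) 1

lemma G_sub (i : Fin n) (c : ℂ) (t : ℝ) (z p : (Fin n → ℂ) × ℂ) :
    ‖G i c t z - G i c t p‖ ≤ 2 * ‖z - p‖ := by
  have h1 : ‖z.1 i - p.1 i‖ ≤ ‖z - p‖ :=
    (norm_le_pi_norm (z.1 - p.1) i).trans (norm_fst_le (z - p))
  have h2 : ‖z.2 - p.2‖ ≤ ‖z - p‖ := norm_snd_le (z - p)
  rw [EuclideanSpace.norm_eq, Fin.sum_univ_three]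
  have e0 : (G i c t z - G i c t p) 0 = z.1 i - p.1 i := by simp [G]
  have e1 : (G i c t z - G i c t p) 1 = z.2 - p.2 := by simp [G]
  have e2 : (G i c t z - G i c t p) 2 = 0 := by simp [G]
  rw [e0, e1, e2]
  apply Real.sqrt_le_iff.mpr
  refine ⟨by positivity, ?_⟩
  have h3 := pow_le_pow_left₀ (norm_nonneg _) h1 2
  have h4 := pow_le_pow_left₀ (norm_nonneg _) h2 2
  rw [norm_zero]
  nlinarith [norm_nonneg (z - p)]

theorem main (n : ℕ) (hn : 1 ≤ n) (r : ℝ) (hr0 : 0 < r) (hr1 : r < 1) :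
    ∃ 𝓕 : Set ((Fin n → ℂ) × ℂ → P2), (∀ g ∈ 𝓕, IsHolomorphic (unitPolydisk n) g) ∧
      IsEquicontinuousOn 𝓕 (hartogsFigure n r) ∧ ¬ IsEquicontinuousOn 𝓕 (unitPolydisk n) := by
  have hpi := Real.pi_pos
  let i : Fin n := ⟨0, hn⟩
  let c : ℂ := ((1 - r / 2 : ℝ) : ℂ)
  have hcn : ‖c‖ = 1 - r / 2 := by
    rw [Complex.norm_real, Real.norm_of_nonneg (by linarith)]
  refine ⟨{g | ∃ (t : ℝ) (ht : 0 < t), g = f i c t ht}, ?_, ?_, ?_⟩
  · rintro g ⟨t, ht, rfl⟩ p hp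
    have hopen : IsOpen (unitPolydisk n) := by
      have h1 : IsOpen (polydisk n 1) := by
        have : polydisk n 1 = ⋂ i : Fin n, {z | ‖z i‖ < 1} := by
          ext z; simp [polydisk]
        rw [this]
        exact isOpen_iInter_of_finite fun i =>
          isOpen_lt (continuous_apply i).norm continuous_const
      exact h1.prod (isOpen_lt continuous_norm continuous_const)
    exact ⟨unitPolydisk n, hopen, hp, le_rfl, G i c t, (G_diff i c t).differentiableOn,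
      fun z _ => ⟨G_ne i c ht z, rfl⟩⟩
  · intro p hp ε hε
    have hlow : ∀ t, r / 2 ≤ ‖G i c t p‖ := by
      intro t
      obtain ⟨h1, h2⟩ := G_lower i c t p
      rcases hp with ⟨h3, -⟩ | ⟨-, h3, -⟩
      · have h4 : ‖c‖ - ‖p.1 i‖ ≤ ‖p.1 i - c‖ := by
          rw [norm_sub_rev]; exact norm_sub_norm_le c (p.1 i)
        have h5 : ‖p.1 i‖ < 1 - r := h3 i
        linarith
      · linarith
    refine ⟨ε * r / (4 * Real.pi), by positivity, ?_⟩
    rintro g ⟨t, ht, rfl⟩ z - hz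
    have h1 := fsDist_le (G_ne i c ht z) (G_ne i c ht p)
    have h2 := G_sub i c t z p
    have h3 := hlow t
    have h4 : ‖G i c t z - G i c t p‖ / ‖G i c t p‖ ≤ 2 * ‖z - p‖ / (r / 2) := by
      gcongr
    calc fsDist (f i c t ht z) (f i c t ht p)
        ≤ Real.pi / 2 * (2 * ‖z - p‖ / (r / 2)) := h1.trans (by gcongr)
      _ = 2 * Real.pi / r * ‖z - p‖ := by field_simp
      _ < 2 * Real.pi / r * (ε * r / (4 * Real.pi)) := by gcongr
      _ = ε / 2 := by field_simp; norm_num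
      _ < ε := by linarith
  · intro h
    let p : (Fin n → ℂ) × ℂ := (fun j => if j = i then c else 0, 0)
    have hp : p ∈ unitPolydisk n := by
      refine ⟨fun j => ?_, ?_⟩
      · show ‖if j = i then c else 0‖ < 1
        split_ifs
        · rw [hcn]; linarith
        · simp
      · show ‖(0 : ℂ)‖ < 1
        simp
    obtain ⟨δ, hδ, h1⟩ := h p hp (Real.pi / 4) (by positivity)
    let s : ℝ := min δ (r / 2) / 2
    have hmin : 0 < min δ (r / 2) := lt_min hδ (by linarith)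
    have hs : 0 < s := by positivity
    have hsδ : s < δ := by
      have := min_le_left δ (r / 2)
      show min δ (r / 2) / 2 < δ
      linarith
    have hsr : s < r / 2 := by
      have := min_le_right δ (r / 2)
      show min δ (r / 2) / 2 < r / 2
      linarith
    let z : (Fin n → ℂ) × ℂ := (fun j => if j = i then c + (s : ℂ) else 0, 0)
    have hz : z ∈ unitPolydisk n := by
      refine ⟨fun j => ?_, ?_⟩
      · show ‖if j = i then c + (s : ℂ) else 0‖ < 1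
        split_ifs
        · refine (norm_add_le _ _).trans_lt ?_
          rw [hcn, Complex.norm_real, Real.norm_of_nonneg hs.le]; linarith
        · simp
      · show ‖(0 : ℂ)‖ < 1
        simp
    have hzp : ‖z - p‖ < δ := by
      rw [Prod.norm_def]
      apply max_lt
      · rw [pi_norm_lt_iff hδ]
        intro j
        show ‖(if j = i then c + (s : ℂ) else 0) - (if j = i then c else 0)‖ < δ
        split_ifs
        · rw [add_sub_cancel_left, Complex.norm_real, Real.norm_of_nonneg hs.le]; exact hsδ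
        · simpa using hδ
      · show ‖(0 : ℂ) - 0‖ < δ
        simpa using hδ
    have h2 := h1 (f i c s hs) ⟨s, hs, rfl⟩ z hz hzp
    have hGz : G i c s z = !₂[(s : ℂ), 0, (s : ℂ)] := by
      simp [G, z]
    have hGp : G i c s p = !₂[0, 0, (s : ℂ)] := by
      simp [G, p]
    have hs2 : Real.sqrt 2 ≠ 0 := by positivity
    have h3 : fsDist (f i c s hs z) (f i c s hs p) = Real.pi / 4 := by
      unfold f
      rw [fsDist_mk, hGz, hGp]
      have e1 : ‖(!₂[(s : ℂ), 0, (s : ℂ)] : E3)‖ = Real.sqrt 2 * s := by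
        rw [EuclideanSpace.norm_eq, Fin.sum_univ_three]
        have : ‖(!₂[(s : ℂ), 0, (s : ℂ)] : E3) 0‖ ^ 2 + ‖(!₂[(s : ℂ), 0, (s : ℂ)] : E3) 1‖ ^ 2 +
            ‖(!₂[(s : ℂ), 0, (s : ℂ)] : E3) 2‖ ^ 2 = 2 * s ^ 2 := by
          simp
          ring
        rw [this, Real.sqrt_mul (by norm_num), Real.sqrt_sq hs.le]
      have e2 : ‖(!₂[0, 0, (s : ℂ)] : E3)‖ = s := by
        rw [EuclideanSpace.norm_eq, Fin.sum_univ_three]
        have : ‖(!₂[0, 0, (s : ℂ)] : E3) 0‖ ^ 2 + ‖(!₂[0, 0, (s : ℂ)] : E3) 1‖ ^ 2 +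
            ‖(!₂[0, 0, (s : ℂ)] : E3) 2‖ ^ 2 = s ^ 2 := by
          simp
        rw [this, Real.sqrt_sq hs.le]
      have e3 : inner ℂ (!₂[(s : ℂ), 0, (s : ℂ)] : E3) !₂[0, 0, (s : ℂ)] = ((s * s : ℝ) : ℂ) := by
        rw [PiLp.inner_apply, Fin.sum_univ_three]
        have e5 : (inner ℂ (s : ℂ) (s : ℂ) : ℂ) = ((s * s : ℝ) : ℂ) := by
          rw [RCLike.inner_apply, Complex.conj_ofReal]
          push_cast
          ring
        have e6 : (inner ℂ (s : ℂ) (0 : ℂ) : ℂ) = 0 := inner_zero_right _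
        have e7 : (inner ℂ (0 : ℂ) (0 : ℂ) : ℂ) = 0 := inner_zero_right _
        show inner ℂ (s : ℂ) (0 : ℂ) + inner ℂ (0 : ℂ) (0 : ℂ) + inner ℂ (s : ℂ) (s : ℂ) = _
        rw [e5, e6, e7]
        ring
      rw [e1, e2, e3, Complex.norm_real, Real.norm_of_nonneg (by positivity)]
      have e4 : s * s / (Real.sqrt 2 * s * s) = Real.cos (Real.pi / 4) := by
        rw [Real.cos_pi_div_four]
        have h22 : Real.sqrt 2 * Real.sqrt 2 = 2 := Real.mul_self_sqrt (by norm_num)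
        rw [div_eq_div_iff (by positivity) (by norm_num)]
        linear_combination (-(s * s)) * h22
      rw [e4, Real.arccos_cos (by positivity) (by linarith)]
    linarith

end Pool.Agent.N284.Equi
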